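import Pool.Agent.Q28.TM.Stm

set_option autoImplicit false

/-! Job BAS of project TM: homogeneous bases of valuated vector spaces. -/

namespace Pool.Agent.Q202.TM

open Pool.Agent.Q28.TM

section

variable {K V : Type} [Field K] [AddCommGroup V] [Module K V] (Vn S : ℕ → Submodule K V)

/-- admissible sequences of subspaces -/
def Adm (T : ℕ → Submodule K V) : Prop :=
  Monotone T ∧ (∀ n, ∀ v ∈ T n, v ∈ Vn n → v = 0) ∧ S ≤ T

theorem exists_max (hS : Adm Vn S S) : ∃ T, Adm Vn S T ∧ ∀ T', Adm Vn S T' → T ≤ T' → T' ≤ T := by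
  obtain ⟨T, _, hT⟩ := zorn_le_nonempty₀ {T : ℕ → Submodule K V | Adm Vn S T} (by
    intro c hc hch y hy
    have : Nonempty c := ⟨⟨y, hy⟩⟩
    have dir : ∀ n, Directed (· ≤ ·) fun T : c => T.1 n := by
      intro n A B
      rcases hch.total A.2 B.2 with h | h
      · exact ⟨B, h n, le_refl _⟩
      · exact ⟨A, le_refl _, h n⟩
    refine ⟨fun n => ⨆ T : c, T.1 n, ⟨?_, ?_, ?_⟩, ?_⟩
    · intro a b hab
      exact iSup_mono fun T => (hc T.2).1 hab
    · intro n v hv hv2
      obtain ⟨T, hT⟩ := (Submodule.mem_iSup_of_directed _ (dir n)).mp hv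
      exact (hc T.2).2.1 n v hT hv2
    · intro n
      exact ((hc hy).2.2 n).trans (le_iSup (fun T : c => T.1 n) ⟨y, hy⟩)
    · intro z hz n
      exact le_iSup (fun T : c => T.1 n) ⟨z, hz⟩) S hS
  exact ⟨T, hT.1, fun T' h1 h2 => hT.2 h1 h2⟩

theorem top_of_max (hV : Antitone Vn) (T : ℕ → Submodule K V) (hT : Adm Vn S T)
    (hm : ∀ T', Adm Vn S T' → T ≤ T' → T' ≤ T) (n m : ℕ) :
    ∀ v ∈ T m, v ∈ T n ⊔ Vn n := by
  classical
  induction m using Nat.strong_induction_on with
  | _ m ih =>
    intro v hv
    rcases le_or_gt m n with hmn | hmn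
    · exact Submodule.mem_sup_left (hT.1 hmn hv)
    · let T' : ℕ → Submodule K V := fun j =>
        if n ≤ j ∧ j < m then T j ⊔ Submodule.span K {v} else T j
      have leT : T ≤ T' := by
        intro j
        show T j ≤ if n ≤ j ∧ j < m then T j ⊔ Submodule.span K {v} else T j
        split_ifs
        · exact le_sup_left
        · exact le_refl _
      have mono : Monotone T' := by
        intro a b hab
        by_cases ha : n ≤ a ∧ a < m
        · show (if n ≤ a ∧ a < m then T a ⊔ Submodule.span K {v} else T a) ≤ _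
          rw [if_pos ha]
          by_cases hb : n ≤ b ∧ b < m
          · show _ ≤ if n ≤ b ∧ b < m then T b ⊔ Submodule.span K {v} else T b
            rw [if_pos hb]
            exact sup_le_sup_right (hT.1 hab) _
          · have hmb : m ≤ b := by omega
            refine le_trans (sup_le (hT.1 hab) ?_) (leT b)
            rw [Submodule.span_singleton_le_iff_mem]
            exact hT.1 hmb hv
        · show (if n ≤ a ∧ a < m then T a ⊔ Submodule.span K {v} else T a) ≤ _
          rw [if_neg ha]
          exact (hT.1 hab).trans (leT b)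
      by_cases hz : ∀ j, ∀ w ∈ T' j, w ∈ Vn j → w = 0
      · have h1 := hm T' ⟨mono, hz, le_trans hT.2.2 leT⟩ leT n
        have h2 : v ∈ T' n := by
          show v ∈ if n ≤ n ∧ n < m then T n ⊔ Submodule.span K {v} else T n
          rw [if_pos ⟨le_refl n, hmn⟩]
          exact Submodule.mem_sup_right (Submodule.mem_span_singleton_self v)
        exact Submodule.mem_sup_left (h1 h2)
      · push Not at hz
        obtain ⟨j, w, hw, hwV, hw0⟩ := hz
        by_cases hj : n ≤ j ∧ j < m
        · have hw' : w ∈ T j ⊔ Submodule.span K {v} := by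
            have : T' j = T j ⊔ Submodule.span K {v} := if_pos hj
            rw [← this]
            exact hw
          obtain ⟨s, hs, t, ht, hst⟩ := Submodule.mem_sup.mp hw'
          obtain ⟨c, rfl⟩ := Submodule.mem_span_singleton.mp ht
          have hc : c ≠ 0 := by
            rintro rfl
            rw [zero_smul, add_zero] at hst
            apply hw0
            rw [← hst] at hwV ⊢
            exact hT.2.1 j s hs hwV
          have hv2 : v = -(c⁻¹ • s) + c⁻¹ • w := by
            rw [← hst, smul_add, smul_smul, inv_mul_cancel₀ hc, one_smul]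
            abel
          rw [hv2]
          refine Submodule.add_mem _ (ih j hj.2 _ ((T j).neg_mem ((T j).smul_mem _ hs))) ?_
          exact Submodule.mem_sup_right (hV hj.1 ((Vn j).smul_mem _ hwV))
        · exfalso
          apply hw0
          have hw' : w ∈ T j := by
            have : T' j = T j := if_neg hj
            rw [← this]
            exact hw
          exact hT.2.1 j w hw' hwV

/-- the layers -/
def lay (k : ℕ) : Submodule K V := S (k + 1) ⊓ Vn k

theorem lay_internal (h0 : Vn 0 = ⊤) (hS : Monotone S) (cov : ∀ v, ∃ n, v ∈ S n)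
    (hz : ∀ n, ∀ v ∈ S n, v ∈ Vn n → v = 0) (htop : ∀ n m, ∀ v ∈ S m, v ∈ S n ⊔ Vn n) :
    DirectSum.IsInternal (lay Vn S) := by
  classical
  constructor
  · rw [injective_iff_map_eq_zero]
    intro f hf
    by_contra hne
    rw [DirectSum.coeAddMonoidHom_eq_dfinsuppSum] at hf
    have hsup : (DFinsupp.support f).Nonempty := by
      rw [Finset.nonempty_iff_ne_empty]
      intro he
      exact hne (DFinsupp.support_eq_empty.mp he)
    let k := (DFinsupp.support f).max' hsup
    have hk : k ∈ DFinsupp.support f := Finset.max'_mem _ _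
    have hfk : f k ≠ 0 := DFinsupp.mem_support_iff.mp hk
    have e : ∑ i ∈ DFinsupp.support f, (f i : V) = 0 := hf
    rw [← Finset.add_sum_erase _ _ hk] at e
    have e2 : (f k : V) = - ∑ i ∈ (DFinsupp.support f).erase k, (f i : V) :=
      eq_neg_of_add_eq_zero_left e
    have hS' : (f k : V) ∈ S k := by
      rw [e2]
      refine Submodule.neg_mem _ (Submodule.sum_mem _ fun i hi => ?_)
      have hik : i < k := by
        have h1 := Finset.le_max' _ i (Finset.mem_of_mem_erase hi)
        exact lt_of_le_of_ne h1 (Finset.ne_of_mem_erase hi)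
      exact hS (Nat.succ_le_of_lt hik) (f i).2.1
    apply hfk
    exact Subtype.ext (hz k _ hS' (f k).2.2)
  · intro v
    suffices H : ∀ m, ∀ v ∈ S m, v ∈ (DirectSum.coeAddMonoidHom (lay Vn S)).range by
      obtain ⟨m, hm⟩ := cov v
      exact H m v hm
    intro m
    induction m with
    | zero =>
      intro v hv
      have : v = 0 := hz 0 v hv (by rw [h0]; exact Submodule.mem_top)
      rw [this]
      exact zero_mem _
    | succ m ih =>
      intro v hv
      obtain ⟨s, hs, w, hw, hsw⟩ := Submodule.mem_sup.mp (htop m (m + 1) v hv)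
      have hwU : w ∈ lay Vn S m := by
        refine ⟨?_, hw⟩
        have : w = v - s := by rw [← hsw]; abel
        rw [this]
        exact (S (m + 1)).sub_mem hv (hS (Nat.le_succ m) hs)
      rw [← hsw]
      refine AddSubgroup.add_mem _ (ih s hs) ⟨DirectSum.of (fun i => lay Vn S i) m ⟨w, hwU⟩, ?_⟩
      exact DirectSum.coeAddMonoidHom_of _ _ _

theorem bas_gen (hV : Antitone Vn) (h0 : Vn 0 = ⊤) (hS : Monotone S) (cov : ∀ v, ∃ n, v ∈ S n)
    (hz : ∀ n, ∀ v ∈ S n, v ∈ Vn n → v = 0) :
    ∃ (ι : Type) (h : ι → ℕ) (e : Module.Basis ι K V), (∀ i, e i ∈ Vn (h i)) ∧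
      ∀ (n : ℕ), ∀ v ∈ Vn n, ∀ i, e.repr v i ≠ 0 → n ≤ h i := by
  classical
  obtain ⟨T, hT, hm⟩ := exists_max Vn S ⟨hS, hz, le_refl S⟩
  have htop := top_of_max Vn S hV T hT hm
  have hint : DirectSum.IsInternal (lay Vn T) := lay_internal Vn T h0 hT.1
    (fun v => let ⟨n, hn⟩ := cov v; ⟨n, hT.2.2 n hn⟩) hT.2.1 htop
  let b : ∀ k, Module.Basis (Module.Basis.ofVectorSpaceIndex K (lay Vn T k)) K (lay Vn T k) :=
    fun k => Module.Basis.ofVectorSpace K (lay Vn T k)
  let e := hint.collectedBasis b
  have he : ∀ i, e i ∈ lay Vn T i.1 := fun i => hint.collectedBasis_mem b i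
  refine ⟨_, fun i => i.1, e, fun i => (he i).2, ?_⟩
  intro n v hv i hi
  by_contra hlt
  rw [not_le] at hlt
  let f := e.repr v
  let f1 := f.filter (fun i => i.1 < n)
  let f2 := f.filter (fun i => ¬ i.1 < n)
  have hf : f1 + f2 = f := Finsupp.filter_pos_add_filter_neg f _
  let v1 := Finsupp.linearCombination K e f1
  let v2 := Finsupp.linearCombination K e f2
  have hv12 : v1 + v2 = v := by
    show Finsupp.linearCombination K e f1 + Finsupp.linearCombination K e f2 = v
    rw [← map_add, hf]
    exact e.linearCombination_repr v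
  have h1 : v1 ∈ T n := by
    show Finsupp.linearCombination K e f1 ∈ T n
    rw [Finsupp.linearCombination_apply]
    refine Submodule.sum_mem _ fun j hj => (T n).smul_mem _ ?_
    have hjn : j.1 < n := by
      have := Finsupp.support_filter (fun i => i.1 < n) f
      rw [this] at hj
      exact (Finset.mem_filter.mp hj).2
    exact hT.1 (Nat.succ_le_of_lt hjn) (he j).1
  have h2 : v2 ∈ Vn n := by
    show Finsupp.linearCombination K e f2 ∈ Vn n
    rw [Finsupp.linearCombination_apply]
    refine Submodule.sum_mem _ fun j hj => (Vn n).smul_mem _ ?_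
    have hjn : ¬ j.1 < n := by
      have := Finsupp.support_filter (fun i => ¬ i.1 < n) f
      rw [this] at hj
      exact (Finset.mem_filter.mp hj).2
    exact hV (not_lt.mp hjn) (he j).2
  have h3 : v1 = 0 := by
    apply hT.2.1 n v1 h1
    have : v1 = v - v2 := by rw [← hv12]; abel
    rw [this]
    exact (Vn n).sub_mem hv h2
  have h4 : f1 = 0 := by
    have li := e.linearIndependent
    rw [linearIndependent_iff] at li
    exact li f1 h3
  apply hi
  have h5 : f1 i = f i := Finsupp.filter_apply_pos _ _ hlt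
  rw [h4] at h5
  exact h5.symm

end

theorem t_BAS : P_BAS := by
  intro p _ V _ _ Vn S hV h0 hS cov hz
  exact bas_gen Vn S hV h0 hS cov hz

end Pool.Agent.Q202.TM
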