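import Pool.Agent.Q28.TM.Stm

set_option autoImplicit false

/-! Job CHAIN of project TM. -/

namespace Pool.Agent.Q202.TM

open Pool.Agent.Q28.TM

section

variable {K V : Type} [Field K] [Finite K] [AddCommGroup V] [Module K V]

theorem chain_step (Vn : ℕ → Submodule K V) (hV : Antitone Vn) (U N : Submodule K V)
    (hU : (U : Set V).Countable)
    (hN : ∀ v : V, (∀ n, ∃ u ∈ N, v - u ∈ Vn n) → v ∈ N) :
    ∃ R : ℕ → Submodule K V, Monotone R ∧ (∀ m, R m ≤ U) ∧ (∀ v ∈ U, ∃ m, v ∈ N ⊔ R m) ∧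
      ∀ m, ∀ v ∈ R m, v ∈ N ⊔ Vn m → v = 0 := by
  classical
  obtain ⟨C, hC⟩ := Submodule.exists_isCompl (U ⊓ N)
  let D' : Submodule K V := U ⊓ C
  have dN : ∀ v ∈ D', v ∈ N → v = 0 := by
    intro v hv hvN
    have h1 : v ∈ (U ⊓ N) ⊓ C := ⟨⟨hv.1, hvN⟩, hv.2⟩
    rw [hC.inf_eq_bot] at h1
    exact (Submodule.mem_bot K).mp h1
  have dU : ∀ v ∈ U, v ∈ N ⊔ D' := by
    intro v hv
    have h1 : v ∈ (U ⊓ N) ⊔ C := by
      rw [hC.sup_eq_top]
      exact Submodule.mem_top
    obtain ⟨x, hx, y, hy, hxy⟩ := Submodule.mem_sup.mp h1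
    have hyU : y ∈ U := by
      have : y = v - x := by rw [← hxy]; abel
      rw [this]
      exact U.sub_mem hv hx.1
    rw [← hxy]
    exact Submodule.add_mem_sup hx.2 ⟨hyU, hy⟩
  have dc : (D' : Set V).Countable := hU.mono fun v hv => hv.1
  obtain ⟨d, hd⟩ := dc.exists_eq_range ⟨0, D'.zero_mem⟩
  let Q : ℕ → Submodule K V := fun n => Submodule.span K (d '' Set.Iic n)
  have Qm : Monotone Q := fun a b hab =>
    Submodule.span_mono (Set.image_mono (Set.Iic_subset_Iic.mpr hab))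
  have QD : ∀ n, Q n ≤ D' := by
    intro n
    refine Submodule.span_le.mpr ?_
    rintro _ ⟨i, _, rfl⟩
    rw [hd]
    exact ⟨i, rfl⟩
  have Qf : ∀ n, (Q n : Set V).Finite := by
    intro n
    have : Module.Finite K (Q n) := Module.Finite.span_of_finite K ((Set.finite_Iic n).image d)
    have : Finite (Q n) := Module.finite_of_finite K
    exact Set.toFinite _
  have ex : ∀ v : V, ∃ m0 : ℕ, ∀ m, m0 ≤ m → v ∈ D' → v ∈ N ⊔ Vn m → v = 0 := by
    intro v
    by_cases hv : v ∈ D' ∧ v ≠ 0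
    · have h1 : v ∉ N := fun h => hv.2 (dN v hv.1 h)
      have h2 : ¬ ∀ n, ∃ u ∈ N, v - u ∈ Vn n := fun h => h1 (hN v h)
      push Not at h2
      obtain ⟨n, hn⟩ := h2
      refine ⟨n, fun m hm _ hvm => ?_⟩
      exfalso
      obtain ⟨x, hx, y, hy, hxy⟩ := Submodule.mem_sup.mp hvm
      apply hn x hx
      have : v - x = y := by rw [← hxy]; abel
      rw [this]
      exact hV hm hy
    · refine ⟨0, fun m _ hvD _ => ?_⟩
      by_contra h0
      exact hv ⟨hvD, h0⟩
  choose f hf using ex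
  have mu : ∀ n, ∃ μ : ℕ, ∀ m, μ ≤ m → ∀ v ∈ Q n, v ∈ N ⊔ Vn m → v = 0 := by
    intro n
    refine ⟨(Qf n).toFinset.sup f, fun m hm v hv hvm => ?_⟩
    refine hf v m (le_trans ?_ hm) (QD n hv) hvm
    exact Finset.le_sup (f := f) ((Qf n).mem_toFinset.mpr hv)
  choose μ hμ using mu
  let R : ℕ → Submodule K V := fun m => ⨆ n : {n : ℕ // μ n ≤ m}, Q n.1
  have Rmem : ∀ m, ∀ v ∈ R m, v = 0 ∨ ∃ n, μ n ≤ m ∧ v ∈ Q n := by
    intro m v hv
    by_cases hne : Nonempty {n : ℕ // μ n ≤ m}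
    · right
      have dir : Directed (· ≤ ·) fun n : {n : ℕ // μ n ≤ m} => Q n.1 := by
        intro a b
        rcases le_total a.1 b.1 with h | h
        · exact ⟨b, Qm h, le_refl _⟩
        · exact ⟨a, le_refl _, Qm h⟩
      obtain ⟨n, hn⟩ := (Submodule.mem_iSup_of_directed _ dir).mp hv
      exact ⟨n.1, n.2, hn⟩
    · left
      have : IsEmpty {n : ℕ // μ n ≤ m} := not_nonempty_iff.mp hne
      have h1 : R m = ⊥ := iSup_of_empty _
      rw [h1] at hv
      exact (Submodule.mem_bot K).mp hv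
  refine ⟨R, ?_, ?_, ?_, ?_⟩
  · intro a b hab
    refine iSup_le fun n => ?_
    exact le_iSup (fun n : {n : ℕ // μ n ≤ b} => Q n.1) ⟨n.1, n.2.trans hab⟩
  · intro m
    exact iSup_le fun n => (QD n.1).trans inf_le_left
  · intro v hv
    obtain ⟨x, hx, y, hy, hxy⟩ := Submodule.mem_sup.mp (dU v hv)
    have hy2 : y ∈ (D' : Set V) := hy
    rw [hd] at hy2
    obtain ⟨i, rfl⟩ := hy2
    refine ⟨μ i, ?_⟩
    rw [← hxy]
    refine Submodule.add_mem_sup hx ?_
    have h1 : d i ∈ Q i := Submodule.subset_span ⟨i, Set.mem_Iic.mpr (le_refl i), rfl⟩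
    exact (le_iSup (fun n : {n : ℕ // μ n ≤ μ i} => Q n.1) ⟨i, le_refl _⟩) h1
  · intro m v hv hvm
    rcases Rmem m v hv with h | ⟨n, hn, hvn⟩
    · exact h
    · exact hμ n m hn v hvn hvm

end

theorem t_CHAIN : P_CHAIN := by
  intro p _ V ι _ _ _ _ Vn D hV hD cov hcl
  classical
  let N : ι → Submodule (ZMod p) V := fun a => ⨆ b : {b : ι // b < a}, D b.1
  choose R hRm hRU hRc hRz using fun a => chain_step Vn hV (D a) (N a) (hD a) (hcl a)
  let S : ℕ → Submodule (ZMod p) V := fun m => ⨆ a, R a m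
  have Sm : Monotone S := fun m m' h => iSup_mono fun a => hRm a h
  have dirS : Directed (· ≤ ·) S := Sm.directed_le
  have cover : ∀ a, D a ≤ ⨆ m, S m := by
    intro a
    induction a using WellFoundedLT.induction with
    | _ a ih =>
      intro v hv
      obtain ⟨m, hm⟩ := hRc a v hv
      obtain ⟨x, hx, y, hy, hxy⟩ := Submodule.mem_sup.mp hm
      rw [← hxy]
      refine Submodule.add_mem _ ?_ ?_
      · have h1 : N a ≤ ⨆ m, S m := iSup_le fun b => ih b.1 b.2
        exact h1 hx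
      · exact (le_iSup S m) ((le_iSup (fun a => R a m) a) hy)
  refine ⟨S, Sm, ?_, ?_⟩
  · intro v
    obtain ⟨a, ha⟩ := cov v
    exact (Submodule.mem_iSup_of_directed _ dirS).mp (cover a ha)
  · intro m v hv hvV
    obtain ⟨f, hf, hs'⟩ := (Submodule.mem_iSup_iff_exists_finsupp _ _).mp hv
    have hs : ∑ i ∈ f.support, f i = v := hs'
    clear hs'
    by_contra hv0
    have hne : f.support.Nonempty := by
      rw [Finset.nonempty_iff_ne_empty]
      intro he
      apply hv0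
      rw [← hs, he, Finset.sum_empty]
    let a := f.support.max' hne
    have ha : a ∈ f.support := Finset.max'_mem _ _
    have hfa : f a ≠ 0 := Finsupp.mem_support_iff.mp ha
    apply hfa
    apply hRz a m (f a) (hf a)
    rw [← Finset.add_sum_erase _ _ ha] at hs
    have e : f a = -(∑ b ∈ f.support.erase a, f b) + v := by rw [← hs]; abel
    rw [e]
    refine Submodule.add_mem_sup (Submodule.neg_mem _ (Submodule.sum_mem _ fun b hb => ?_)) hvV
    have hba : b < a :=
      lt_of_le_of_ne (Finset.le_max' _ b (Finset.mem_of_mem_erase hb)) (Finset.ne_of_mem_erase hb)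
    exact (le_iSup (fun b : {b : ι // b < a} => D b.1) ⟨b, hba⟩) (hRU b m (hf b))

end Pool.Agent.Q202.TM
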