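import Pool.Agent.Q28.TM.Stm

set_option autoImplicit false

/-! Job KUL of project TM: Kulikov's criterion. -/

namespace Pool.Agent.Q202.TM

open Pool.Agent.Q28.TM

section

variable {A : Type} [AddCommGroup A] {I : Nat.Primes → Type}
  (h : (q : Nat.Primes) → I q → ℕ) (g : (Σ q : Nat.Primes, I q) → A)

/-- the orders -/
def ord (j : Σ q : Nat.Primes, I q) : ℕ := (j.1 : ℕ) ^ (h j.1 j.2 + 1)

theorem ord_pos (j : Σ q : Nat.Primes, I q) : 0 < ord h j :=
  pow_pos j.1.2.pos _

/-- the homomorphism from one summand -/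
noncomputable def one (hg : ∀ j, (ord h j) • g j = 0) (j : Σ q : Nat.Primes, I q) :
    ZMod (ord h j) →+ A :=
  ZMod.lift (ord h j) ⟨zmultiplesHom A (g j), by
    show ((ord h j : ℕ) : ℤ) • g j = 0
    rw [natCast_zsmul]
    exact hg j⟩

theorem one_apply (hg : ∀ j, (ord h j) • g j = 0) (j : Σ q : Nat.Primes, I q)
    (x : ZMod (ord h j)) : one h g hg j x = x.val • g j := by
  have : NeZero (ord h j) := ⟨(ord_pos h j).ne'⟩
  have e : x = ((x.val : ℤ) : ZMod (ord h j)) := by
    rw [Int.cast_natCast, ZMod.natCast_zmod_val]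
  conv_lhs => rw [e]
  unfold one
  rw [ZMod.lift_coe]
  show ((x.val : ℕ) : ℤ) • g j = _
  rw [natCast_zsmul]

end

theorem t_KUL : P_KUL := by
  intro A _ I h e tors h2 h3 h4
  classical
  choose g0 hg0 using fun (q : Nat.Primes) (i : I q) => (h2 q i).2
  let g : (Σ q : Nat.Primes, I q) → A := fun j => g0 j.1 j.2
  have ge : ∀ (q : Nat.Primes) (i : I q), (q : ℕ) ^ (h q i) • g ⟨q, i⟩ = e q i := fun q i => (hg0 q i).symm
  have hg : ∀ j, (ord h j) • g j = 0 := by
    rintro ⟨q, i⟩
    show ((q : ℕ) ^ (h q i + 1)) • g ⟨q, i⟩ = 0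
    rw [pow_succ', mul_smul, ge]
    exact (h2 q i).1
  let Φ : (Π₀ j, ZMod (ord h j)) →+ A := DFinsupp.liftAddHom (one h g hg)
  have Φs : ∀ j x, Φ (DFinsupp.single j x) = x.val • g j := by
    intro j x
    show DFinsupp.liftAddHom (one h g hg) (DFinsupp.single j x) = _
    rw [DFinsupp.liftAddHom_apply_single, one_apply]
  have Φa : ∀ z : (Π₀ j, ZMod (ord h j)), Φ z = ∑ j ∈ z.support, (z j).val • g j := by
    intro z
    show DFinsupp.liftAddHom (one h g hg) z = _
    rw [DFinsupp.liftAddHom_apply, DFinsupp.sumAddHom_apply, DFinsupp.sum]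
    refine Finset.sum_congr rfl fun j _ => ?_
    exact one_apply h g hg j (z j)
  have grange : ∀ j, g j ∈ Φ.range := by
    intro j
    refine ⟨DFinsupp.single j 1, ?_⟩
    rw [Φs]
    have h1 : 1 < ord h j := Nat.one_lt_pow (by omega) j.1.2.one_lt
    have : Fact (1 < ord h j) := ⟨h1⟩
    rw [ZMod.val_one, one_smul]
  refine ⟨(Σ q : Nat.Primes, I q), ord h, ord_pos h, ⟨(AddEquiv.ofBijective Φ ⟨?_, ?_⟩).symm⟩⟩
  · rw [injective_iff_map_eq_zero]
    intro z hz
    by_contra hne
    -- finite order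
    have fin : ∃ n : ℕ, 0 < n ∧ n • z = 0 := by
      refine ⟨∏ j ∈ z.support, ord h j, Finset.prod_pos fun j _ => ord_pos h j, ?_⟩
      ext j
      rw [DFinsupp.coe_smul, Pi.smul_apply, DFinsupp.coe_zero, Pi.zero_apply]
      by_cases hj : j ∈ z.support
      · obtain ⟨c, hc⟩ := Finset.dvd_prod_of_mem (ord h) hj
        rw [hc, mul_comm, mul_smul, nsmul_eq_mul ((ord h j)), ZMod.natCast_self, zero_mul, smul_zero]
      · rw [DFinsupp.notMem_support_iff.mp hj, smul_zero]
    have fo : IsOfFinAddOrder z := isOfFinAddOrder_iff_nsmul_eq_zero.mpr fin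
    have o0 : 0 < addOrderOf z := fo.addOrderOf_pos
    have o1 : addOrderOf z ≠ 1 := fun h1 => hne (AddMonoid.addOrderOf_eq_one_iff.mp h1)
    obtain ⟨q, hq, m, hm⟩ := Nat.exists_prime_and_dvd o1
    let Q : Nat.Primes := ⟨q, hq⟩
    have m0 : 0 < m := by
      rcases Nat.eq_zero_or_pos m with h0 | h0
      · rw [h0, mul_zero] at hm; omega
      · exact h0
    have mlt : m < addOrderOf z := by
      rw [hm]
      have := hq.two_le
      nlinarith
    set w := m • z with hw
    have w0 : w ≠ 0 := fun h0 => by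
      have := addOrderOf_le_of_nsmul_eq_zero m0 h0
      omega
    have qw : q • w = 0 := by
      rw [hw, ← mul_smul, ← hm]
      exact addOrderOf_nsmul_eq_zero z
    have Φw : Φ w = 0 := by rw [hw, map_nsmul, hz, smul_zero]
    have qwj : ∀ j, q • w j = 0 := fun j => by
      have := congrArg (fun f : (Π₀ j, ZMod (ord h j)) => f j) qw
      simpa using this
    -- coordinates for other primes vanish
    have other : ∀ j : (Σ q : Nat.Primes, I q), j.1 ≠ Q → w j = 0 := by
      rintro ⟨q', i⟩ hj
      have : NeZero (ord h ⟨q', i⟩) := ⟨(ord_pos h _).ne'⟩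
      have hc : Nat.Coprime q (ord h ⟨q', i⟩) := by
        show Nat.Coprime q ((q' : ℕ) ^ (h q' i + 1))
        refine Nat.Coprime.pow_right _ ?_
        refine (Nat.coprime_primes hq q'.2).mpr ?_
        intro hh
        apply hj
        exact Subtype.ext hh.symm
      have h1 := qwj ⟨q', i⟩
      rw [nsmul_eq_mul] at h1
      have u : IsUnit ((q : ZMod (ord h ⟨q', i⟩))) := (ZMod.isUnit_iff_coprime q _).mpr hc
      exact (u.mul_right_eq_zero).mp h1
    -- coordinates for q
    have div : ∀ i : I Q, (w ⟨Q, i⟩).val = (w ⟨Q, i⟩).val / q ^ (h Q i) * q ^ (h Q i) ∧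
        (w ⟨Q, i⟩).val / q ^ (h Q i) < q := by
      intro i
      have : NeZero (ord h ⟨Q, i⟩) := ⟨(ord_pos h _).ne'⟩
      have h1 := qwj ⟨Q, i⟩
      have h2' : ((q * (w ⟨Q, i⟩).val : ℕ) : ZMod (ord h ⟨Q, i⟩)) = 0 := by
        rw [Nat.cast_mul, ZMod.natCast_zmod_val, ← nsmul_eq_mul]
        exact h1
      rw [ZMod.natCast_eq_zero_iff] at h2'
      have h3' : q ^ (h Q i + 1) ∣ q * (w ⟨Q, i⟩).val := h2'
      rw [pow_succ'] at h3'
      have h4' : q ^ (h Q i) ∣ (w ⟨Q, i⟩).val := Nat.dvd_of_mul_dvd_mul_left hq.pos h3'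
      refine ⟨(Nat.div_mul_cancel h4').symm, ?_⟩
      have h5 : (w ⟨Q, i⟩).val < q ^ (h Q i + 1) := ZMod.val_lt _
      rw [pow_succ'] at h5
      exact Nat.div_lt_of_lt_mul (by rw [mul_comm]; exact h5)
    have inj : Set.InjOn (Sigma.mk Q) ((Sigma.mk Q) ⁻¹' (w.support : Set (Σ q : Nat.Primes, I q))) :=
      fun a _ b _ hab => by
        have := sigma_mk_injective hab
        exact this
    let s : Finset (I Q) := w.support.preimage (Sigma.mk Q) inj
    let c : I Q →₀ ℤ := Finsupp.onFinset s (fun i => (((w ⟨Q, i⟩).val / q ^ (h Q i) : ℕ) : ℤ)) (by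
      intro i hi
      rw [Finset.mem_preimage, DFinsupp.mem_support_iff]
      intro h0
      apply hi
      rw [h0, ZMod.val_zero, Nat.zero_div, Nat.cast_zero])
    have cs : c.sum (fun i m => m • e Q i) = 0 := by
      rw [Finsupp.onFinset_sum _ (fun i => zero_smul ℤ (e Q i))]
      have key : ∑ i ∈ s, (w ⟨Q, i⟩).val • g ⟨Q, i⟩ = 0 := by
        rw [Finset.sum_preimage (Sigma.mk Q) w.support inj (fun j => (w j).val • g j), ← Φa, Φw]
        intro j hj hj2
        exfalso
        have h1 : w j ≠ 0 := DFinsupp.mem_support_iff.mp hj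
        apply h1
        apply other
        intro hh
        apply hj2
        obtain ⟨q', i⟩ := j
        obtain rfl : q' = Q := hh
        exact ⟨i, rfl⟩
      rw [← key]
      refine Finset.sum_congr rfl fun i _ => ?_
      rw [natCast_zsmul, ← ge, ← mul_smul]
      congr 1
      exact (div i).1.symm
    have hd := h4 Q c cs
    apply w0
    ext j
    rw [DFinsupp.coe_zero, Pi.zero_apply]
    by_cases hj : j.1 = Q
    · obtain ⟨q', i⟩ := j
      obtain rfl : q' = Q := hj
      have h1 := hd i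
      have h2' : c i = (((w ⟨Q, i⟩).val / q ^ (h Q i) : ℕ) : ℤ) := rfl
      rw [h2'] at h1
      have h3' : q ∣ (w ⟨Q, i⟩).val / q ^ (h Q i) := by exact_mod_cast h1
      have h4' := Nat.eq_zero_of_dvd_of_lt h3' (div i).2
      have h5 := (div i).1
      rw [h4', zero_mul] at h5
      exact (ZMod.val_eq_zero _).mp h5
    · exact other j hj
  · -- surjective
    suffices H : ∀ n : ℕ, n ≠ 0 → ∀ a : A, n • a = 0 → a ∈ Φ.range by
      intro a
      obtain ⟨n, hn, hna⟩ := tors a
      exact H n hn.ne' a hna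
    intro n
    induction n using Nat.recOnPosPrimePosCoprime with
    | prime_pow q m hq hm =>
      intro _
      clear hm
      induction m with
      | zero =>
        intro a ha
        rw [pow_zero, one_smul] at ha
        rw [ha]
        exact zero_mem _
      | succ m ih =>
        intro a ha
        let Q : Nat.Primes := ⟨q, hq⟩
        have hb : (Q : ℕ) • (q ^ m • a) = 0 := by
          show q • (q ^ m • a) = 0
          rw [← mul_smul, ← pow_succ']
          exact ha
        obtain ⟨c, hc, hcs⟩ := h3 Q m (q ^ m • a) hb ⟨a, rfl⟩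
        let r : A := c.sum (fun i t => t • (q ^ (h Q i - m) • g ⟨Q, i⟩))
        have hr : r ∈ Φ.range := by
          refine AddSubgroup.sum_mem _ fun i _ => ?_
          exact AddSubgroup.zsmul_mem _ (AddSubgroup.nsmul_mem _ (grange _) _) _
        have hqr : q ^ m • r = q ^ m • a := by
          rw [hcs]
          show q ^ m • (c.sum fun i t => t • (q ^ (h Q i - m) • g ⟨Q, i⟩)) = _
          rw [Finsupp.smul_sum]
          refine Finset.sum_congr rfl fun i hi => ?_
          show q ^ m • (c i • (q ^ (h Q i - m) • g ⟨Q, i⟩)) = c i • e Q i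
          rw [smul_comm, ← mul_smul, ← pow_add]
          have hle : m ≤ h Q i := hc i (Finsupp.mem_support_iff.mp hi)
          rw [Nat.add_sub_cancel' hle]
          congr 1
          exact ge Q i
        have h1 : q ^ m • (a - r) = 0 := by rw [smul_sub, hqr, sub_self]
        have h2' := ih (pow_ne_zero _ hq.ne_zero) (a - r) h1
        have := Φ.range.add_mem h2' hr
        rwa [sub_add_cancel] at this
    | zero => intro h0; exact absurd rfl h0
    | one =>
      intro _ a ha
      rw [one_smul] at ha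
      rw [ha]
      exact zero_mem _
    | coprime m1 m2 h1 h2' hc ih1 ih2 =>
      intro _ a ha
      have e1 : m2 • (m1 • a) = 0 := by rw [← mul_smul, mul_comm]; exact ha
      have e2 : m1 • (m2 • a) = 0 := by rw [← mul_smul]; exact ha
      have r1 := ih2 (by omega) _ e1
      have r2 := ih1 (by omega) _ e2
      have bez := Nat.isCoprime_iff_coprime.mpr hc
      obtain ⟨u, v, huv⟩ := bez
      have : a = u • (m1 • a) + v • (m2 • a) := by
        rw [← natCast_zsmul a m1, ← natCast_zsmul a m2, ← mul_smul, ← mul_smul, ← add_smul, huv,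
          one_smul]
      rw [this]
      exact Φ.range.add_mem (Φ.range.zsmul_mem r1 u) (Φ.range.zsmul_mem r2 v)

end Pool.Agent.Q202.TM
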